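import Pool.Agent.Y814.TA.Qmx

/-!
Project TA (helper472), job TA-GM (helper814): Gaussian moments.
-/

set_option autoImplicit false

namespace Pool.Agent.Y814.TA

open Finset Filter Topology MeasureTheory Pool.Agent.Y472.L
open scoped Real Nat

section

variable {ι : Type} [Fintype ι] [DecidableEq ι]

/-- the scaling factors -/
noncomputable def sv (κ : ℂ) : Option ι → ℂ
  | some _ => pI
  | none => κ

/-- the basis vectors -/
noncomputable def ev : Option ι → (ι → ℝ) × ℝ
  | some a => (Pi.single a 1, 0)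
  | none => (0, 1)

theorem sv_ne {κ : ℂ} (hκ : κ ≠ 0) (i : Option ι) : sv κ i ≠ 0 := by
  rcases i with _ | a
  · exact hκ
  · exact pI_ne

theorem uc_line (κ : ℂ) (x : (ι → ℝ) × ℝ) (τ : ℝ) (i k : Option ι) :
    uc κ (x + τ • ev i) k = uc κ x k + (τ : ℂ) * (if k = i then sv κ i else 0) := by
  rcases i with _ | a <;> rcases k with _ | b
  · simp [uc, ev, sv]
    ring
  · simp [uc, ev, sv]
  · simp [uc, ev, sv]
  · by_cases h : b = a
    · subst h
      simp [uc, ev, sv]
      ring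
    · have h' : (some b : Option ι) ≠ some a := by
        intro h1
        exact h (Option.some.inj h1)
      simp [uc, ev, sv, h]

/-- monomials in the scaled coordinates -/
noncomputable def mo (κ : ℂ) (n : Option ι → ℕ) (t : (ι → ℝ) × ℝ) : ℂ := ∏ k, uc κ t k ^ n k

theorem mo_split (κ : ℂ) (n : Option ι → ℕ) (i : Option ι) (t : (ι → ℝ) × ℝ) :
    mo κ n t = uc κ t i ^ n i * ∏ k ∈ univ.erase i, uc κ t k ^ n k :=
  (Finset.mul_prod_erase univ (fun k => uc κ t k ^ n k) (Finset.mem_univ i)).symm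

theorem mo_update (κ : ℂ) (n : Option ι → ℕ) (i : Option ι) (m : ℕ) (t : (ι → ℝ) × ℝ) :
    mo κ (Function.update n i m) t = uc κ t i ^ m * ∏ k ∈ univ.erase i, uc κ t k ^ n k := by
  rw [mo_split κ _ i t, Function.update_self]
  congr 1
  refine Finset.prod_congr rfl fun k hk => ?_
  rw [Function.update_of_ne (Finset.ne_of_mem_erase hk)]

theorem mo_succ (κ : ℂ) (n : Option ι → ℕ) (i : Option ι) (t : (ι → ℝ) × ℝ) :
    mo κ (Function.update n i (n i + 1)) t = uc κ t i * mo κ n t := by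
  rw [mo_update, mo_split κ n i t, pow_succ]
  ring

theorem uc_cont (κ : ℂ) (k : Option ι) : Continuous (fun t : (ι → ℝ) × ℝ => uc κ t k) := by
  rcases k with _ | a
  · show Continuous (fun t : (ι → ℝ) × ℝ => κ * (t.2 : ℂ))
    fun_prop
  · show Continuous (fun t : (ι → ℝ) × ℝ => pI * (t.1 a : ℂ))
    fun_prop

theorem mo_cont (κ : ℂ) (n : Option ι → ℕ) : Continuous (mo κ n : (ι → ℝ) × ℝ → ℂ) := by
  unfold mo
  exact continuous_finsetProd _ fun k _ => (uc_cont κ k).pow _

theorem mo_line (κ : ℂ) (n : Option ι → ℕ) (i : Option ι) (x : (ι → ℝ) × ℝ) :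
    HasLineDerivAt ℝ (mo κ n) (n i * sv κ i * mo κ (Function.update n i (n i - 1)) x) x
      (ev i) := by
  unfold HasLineDerivAt
  have h1 : (fun τ : ℝ => mo κ n (x + τ • ev i)) =
      fun τ : ℝ => (uc κ x i + (τ : ℂ) * sv κ i) ^ n i *
        ∏ k ∈ univ.erase i, uc κ x k ^ n k := by
    ext τ
    rw [mo_split κ n i, uc_line, if_pos rfl]
    congr 1
    refine Finset.prod_congr rfl fun k hk => ?_
    rw [uc_line, if_neg (Finset.ne_of_mem_erase hk), mul_zero, add_zero]
  rw [h1, mo_update]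
  have h2 : HasDerivAt (fun τ : ℝ => uc κ x i + (τ : ℂ) * sv κ i) (sv κ i) 0 := by
    have h3 : HasDerivAt (fun τ : ℝ => (τ : ℂ)) 1 0 := (hasDerivAt_id (0 : ℝ)).ofReal_comp
    have h4 := (h3.mul_const (sv κ i)).const_add (uc κ x i)
    rwa [one_mul] at h4
  have h5 := (h2.pow (n i)).mul_const (∏ k ∈ univ.erase i, uc κ x k ^ n k)
  refine h5.congr_deriv ?_
  rw [Complex.ofReal_zero, zero_mul, add_zero]
  ring

theorem Bf_line (κ : ℂ) (G : Matrix (Option ι) (Option ι) ℂ) (hG : G.IsSymm) (x : (ι → ℝ) × ℝ)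
    (i : Option ι) (τ : ℝ) :
    Bf G (uc κ (x + τ • ev i)) (uc κ (x + τ • ev i)) =
      Bf G (uc κ x) (uc κ x) + τ * (2 * sv κ i * ∑ b, G i b * uc κ x b) +
        τ ^ 2 * (sv κ i ^ 2 * G i i) := by
  obtain ⟨W, hW⟩ : ∃ W : Option ι → ℂ, W = fun k => if k = i then sv κ i else 0 := ⟨_, rfl⟩
  have h1 : uc κ (x + τ • ev i) = fun k => uc κ x k + (τ : ℂ) * W k := by
    ext k
    rw [uc_line, hW]
  have h2 : ∀ U : Option ι → ℂ, Bf G W U = sv κ i * ∑ b, G i b * U b := by
    intro U
    unfold Bf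
    rw [Finset.sum_eq_single i]
    · rw [Finset.mul_sum]
      refine Finset.sum_congr rfl fun b _ => ?_
      rw [hW]
      simp
      ring
    · intro a _ ha
      apply Finset.sum_eq_zero
      intro b _
      rw [hW]
      simp [ha]
    · intro h
      exact absurd (Finset.mem_univ i) h
  have h3 : ∑ b, G i b * W b = G i i * sv κ i := by
    rw [Finset.sum_eq_single i]
    · rw [hW]
      simp
    · intro b _ hb
      rw [hW]
      simp [hb]
    · intro h
      exact absurd (Finset.mem_univ i) h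
  rw [h1, Bf_add, Bf_symm G hG _ (uc κ x), Bf_symm G hG _ W, Bf_add, Bf_add,
    Bf_symm G hG (uc κ x) W, h2, h2, h3]
  ring

theorem q_line (κ : ℂ) (G : Matrix (Option ι) (Option ι) ℂ) (hG : G.IsSymm)
    (q : ((ι → ℝ) × ℝ) → ℂ) (hq : ∀ t, q t = pI⁻¹ * Bf G (uc κ t) (uc κ t)) (x : (ι → ℝ) × ℝ)
    (i : Option ι) :
    HasLineDerivAt ℝ (fun t => Complex.exp (q t))
      (Complex.exp (q x) * (pI⁻¹ * (2 * sv κ i * ∑ b, G i b * uc κ x b))) x (ev i) := by
  unfold HasLineDerivAt
  have h1 : (fun τ : ℝ => Complex.exp (q (x + τ • ev i))) = fun τ : ℝ =>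
      Complex.exp (q x + ((τ : ℂ) * (pI⁻¹ * (2 * sv κ i * ∑ b, G i b * uc κ x b)) +
        (τ : ℂ) ^ 2 * (pI⁻¹ * (sv κ i ^ 2 * G i i)))) := by
    ext τ
    congr 1
    rw [hq, hq x, Bf_line κ G hG]
    ring
  rw [h1]
  have h3 : HasDerivAt (fun τ : ℝ => (τ : ℂ)) 1 0 := (hasDerivAt_id (0 : ℝ)).ofReal_comp
  have h4 := ((h3.mul_const (pI⁻¹ * (2 * sv κ i * ∑ b, G i b * uc κ x b))).add
    ((h3.pow 2).mul_const (pI⁻¹ * (sv κ i ^ 2 * G i i)))).const_add (q x)
  refine h4.cexp.congr_deriv ?_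
  simp

theorem low (R : QuadraticForm ℝ ((ι → ℝ) × ℝ)) (hR : R.PosDef) (hc : Continuous fun t => R t) :
    ∃ c : ℝ, 0 < c ∧ ∀ t, c * ‖t‖ ^ 2 ≤ R t := by
  obtain ⟨x, hx, hmin⟩ := (isCompact_sphere (0 : (ι → ℝ) × ℝ) 1).exists_isMinOn
    ⟨(0, 1), by simp⟩ hc.continuousOn
  have hx0 : x ≠ 0 := by
    intro h
    rw [h] at hx
    simp at hx
  refine ⟨R x, hR x hx0, fun t => ?_⟩
  rcases eq_or_ne t 0 with h | h
  · rw [h, QuadraticMap.map_zero, norm_zero]
    simp
  · have hn : 0 < ‖t‖ := norm_pos_iff.2 h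
    have h1 : ‖t‖⁻¹ • t ∈ Metric.sphere (0 : (ι → ℝ) × ℝ) 1 := by
      rw [mem_sphere_zero_iff_norm, norm_smul, norm_inv, norm_norm, inv_mul_cancel₀ hn.ne']
    have h2 : R x ≤ R (‖t‖⁻¹ • t) := hmin h1
    rw [QuadraticMap.map_smul, smul_eq_mul] at h2
    have h3 : R x * ‖t‖ ^ 2 ≤ (‖t‖⁻¹ * ‖t‖⁻¹ * R t) * ‖t‖ ^ 2 :=
      mul_le_mul_of_nonneg_right h2 (by positivity)
    have h4 : (‖t‖⁻¹ * ‖t‖⁻¹ * R t) * ‖t‖ ^ 2 = R t := by
      field_simp
    linarith

theorem mo_le (κ : ℂ) (n : Option ι → ℕ) (t : (ι → ℝ) × ℝ) :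
    ‖mo κ n t‖ ≤ (‖pI‖ + ‖κ‖) ^ (∑ k, n k) * Pool.Agent.Y306.TKX.wt t ^ (∑ k, n k) := by
  unfold mo
  rw [norm_prod, ← mul_pow, ← Finset.prod_pow_eq_pow_sum]
  apply Finset.prod_le_prod
  · intro k _
    exact norm_nonneg _
  · intro k _
    rw [norm_pow]
    apply pow_le_pow_left₀ (norm_nonneg _)
    have hw : ‖t‖ ≤ Pool.Agent.Y306.TKX.wt t := by
      unfold Pool.Agent.Y306.TKX.wt
      linarith
    have hw0 := (Pool.Agent.Y306.TKX.wt_pos t).le
    rcases k with _ | a
    · show ‖κ * (t.2 : ℂ)‖ ≤ _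
      rw [norm_mul, Complex.norm_real]
      have h1 : ‖t.2‖ ≤ ‖t‖ := norm_snd_le t
      exact mul_le_mul (by linarith [norm_nonneg pI]) (h1.trans hw) (norm_nonneg _) (by positivity)
    · show ‖pI * (t.1 a : ℂ)‖ ≤ _
      rw [norm_mul, Complex.norm_real]
      have h1 : ‖t.1 a‖ ≤ ‖t‖ := (norm_le_pi_norm t.1 a).trans (norm_fst_le t)
      exact mul_le_mul (by linarith [norm_nonneg κ]) (h1.trans hw) (norm_nonneg _) (by positivity)

theorem mo_int (κ : ℂ) (n : Option ι → ℕ) (q : ((ι → ℝ) × ℝ) → ℂ) (hqc : Continuous q)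
    (c : ℝ) (hc : 0 < c) (hq : ∀ t, (q t).re ≤ -(c * ‖t‖ ^ 2)) :
    Integrable (fun t => Complex.exp (q t) * mo κ n t) := by
  have h1 := (Pool.Agent.Y306.TKX.Df_int (ι := ι) (T := 0) hc (∑ k, n k)).const_mul
    ((‖pI‖ + ‖κ‖) ^ (∑ k, n k))
  refine h1.mono' ?_ (Eventually.of_forall fun t => ?_)
  · exact ((Complex.continuous_exp.comp hqc).mul (mo_cont κ n)).aestronglyMeasurable
  · rw [norm_mul, Complex.norm_exp]
    unfold Pool.Agent.Y306.TKX.Df
    rw [Real.exp_zero, mul_one]
    calc Real.exp (q t).re * ‖mo κ n t‖ ≤ Real.exp (-(c * ‖t‖ ^ 2)) *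
          ((‖pI‖ + ‖κ‖) ^ (∑ k, n k) * Pool.Agent.Y306.TKX.wt t ^ (∑ k, n k)) :=
          mul_le_mul (Real.exp_le_exp.2 (hq t)) (mo_le κ n t) (norm_nonneg _) (Real.exp_pos _).le
      _ = _ := by ring

/-- the recursion -/
theorem rec (κ : ℂ) (hκ : κ ≠ 0) (G : Matrix (Option ι) (Option ι) ℂ) (hG : G.IsSymm)
    (q : ((ι → ℝ) × ℝ) → ℂ) (hq : ∀ t, q t = pI⁻¹ * Bf G (uc κ t) (uc κ t))
    (hint : ∀ n : Option ι → ℕ, Integrable (fun t => Complex.exp (q t) * mo κ n t))
    (n : Option ι → ℕ) (i : Option ι) :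
    ∑ b, G i b * ∫ t, Complex.exp (q t) * mo κ (Function.update n b (n b + 1)) t =
      -(pI / 2) * (n i * ∫ t, Complex.exp (q t) * mo κ (Function.update n i (n i - 1)) t) := by
  have hh := Pool.Agent.Y306.TKX.haarX (ι := ι)
  have e1 : ∀ t : (ι → ℝ) × ℝ, mo κ n t * (Complex.exp (q t) *
      (pI⁻¹ * (2 * sv κ i * ∑ b, G i b * uc κ t b))) =
      ∑ b, (pI⁻¹ * (2 * sv κ i)) * (G i b * (Complex.exp (q t) *
        mo κ (Function.update n b (n b + 1)) t)) := by
    intro t
    rw [← Finset.mul_sum]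
    simp_rw [mo_succ]
    have h2 : ∑ b, G i b * (Complex.exp (q t) * (uc κ t b * mo κ n t)) =
        Complex.exp (q t) * mo κ n t * ∑ b, G i b * uc κ t b := by
      rw [Finset.mul_sum]
      exact Finset.sum_congr rfl fun b _ => by ring
    rw [h2]
    ring
  have e2 : ∀ t : (ι → ℝ) × ℝ, (n i * sv κ i * mo κ (Function.update n i (n i - 1)) t) *
      Complex.exp (q t) = (n i * sv κ i) * (Complex.exp (q t) *
        mo κ (Function.update n i (n i - 1)) t) := by
    intro t
    ring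
  have hpI := pI_ne
  have hsv := sv_ne hκ i
  have i1 : ∀ b, Integrable (fun t => (pI⁻¹ * (2 * sv κ i)) * (G i b * (Complex.exp (q t) *
        mo κ (Function.update n b (n b + 1)) t))) := fun b =>
    ((hint (Function.update n b (n b + 1))).const_mul (G i b)).const_mul _
  have h := integral_bilinear_hasLineDerivAt_right_eq_neg_left_of_integrable
    (μ := (volume : Measure ((ι → ℝ) × ℝ))) (B := ContinuousLinearMap.mul ℝ ℂ)
    (f := mo κ n) (f' := fun t => n i * sv κ i * mo κ (Function.update n i (n i - 1)) t)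
    (g := fun t => Complex.exp (q t))
    (g' := fun t => Complex.exp (q t) * (pI⁻¹ * (2 * sv κ i * ∑ b, G i b * uc κ t b)))
    (v := ev i) ?_ ?_ ?_ (fun x _ => mo_line κ n i x) (fun x _ => q_line κ G hG q hq x i)
  · simp only [ContinuousLinearMap.mul_apply'] at h
    simp_rw [e1, e2] at h
    rw [integral_finsetSum _ (fun b _ => i1 b)] at h
    simp_rw [integral_const_mul] at h
    rw [← Finset.mul_sum] at h
    have h6 : sv κ i * (∑ b, G i b * ∫ t, Complex.exp (q t) *
        mo κ (Function.update n b (n b + 1)) t) = sv κ i * (-(pI / 2) * (n i * ∫ t,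
          Complex.exp (q t) * mo κ (Function.update n i (n i - 1)) t)) := by
      have h7 := congrArg (fun w => pI / 2 * w) h
      have h8 : pI / 2 * (pI⁻¹ * (2 * sv κ i) * ∑ b, G i b * ∫ t, Complex.exp (q t) *
        mo κ (Function.update n b (n b + 1)) t) = sv κ i * ∑ b, G i b * ∫ t,
          Complex.exp (q t) * mo κ (Function.update n b (n b + 1)) t := by
        field_simp
      rw [h8] at h7
      rw [h7]
      ring
    exact mul_left_cancel₀ hsv h6
  · simp only [ContinuousLinearMap.mul_apply']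
    simp_rw [e2]
    exact (hint _).const_mul _
  · simp only [ContinuousLinearMap.mul_apply']
    simp_rw [e1]
    exact integrable_finsetSum _ fun b _ => i1 b
  · simp only [ContinuousLinearMap.mul_apply']
    refine (hint n).congr (Eventually.of_forall fun t => ?_)
    exact mul_comm _ _

/-- inversion over the subfield -/
theorem invE (E : Subfield ℂ) (G : Matrix (Option ι) (Option ι) ℂ) (hE : ∀ i j, G i j ∈ E)
    (hdet : G.det ≠ 0) : ∃ H : Matrix (Option ι) (Option ι) ℂ, (∀ i j, H i j ∈ E) ∧ H * G = 1 := by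
  obtain ⟨G', hG'⟩ : ∃ G' : Matrix (Option ι) (Option ι) E, G' = fun i j => ⟨G i j, hE i j⟩ :=
    ⟨_, rfl⟩
  have h1 : E.subtype.mapMatrix G' = G := by
    ext i j
    rw [RingHom.mapMatrix_apply, Matrix.map_apply, hG']
    rfl
  have h2 : E.subtype G'.det = G.det := by
    rw [RingHom.map_det, h1]
  have h3 : G'.det ≠ 0 := by
    intro h
    rw [h, map_zero] at h2
    exact hdet h2.symm
  have h4 : G'⁻¹ * G' = 1 := Matrix.nonsing_inv_mul G' (isUnit_iff_ne_zero.2 h3)
  refine ⟨E.subtype.mapMatrix G'⁻¹, fun i j => ?_, ?_⟩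
  · rw [RingHom.mapMatrix_apply, Matrix.map_apply]
    exact (G'⁻¹ i j).2
  · rw [← h1, ← map_mul, h4, map_one]

/-- the moments -/
theorem moments (E : Subfield ℂ) (κ : ℂ) (hκ : κ ≠ 0) (G : Matrix (Option ι) (Option ι) ℂ)
    (hE : ∀ i j, G i j ∈ E) (hdet : G.det ≠ 0) (hG : G.IsSymm)
    (q : ((ι → ℝ) × ℝ) → ℂ) (hq : ∀ t, q t = pI⁻¹ * Bf G (uc κ t) (uc κ t))
    (hint : ∀ n : Option ι → ℕ, Integrable (fun t => Complex.exp (q t) * mo κ n t)) (m : ℕ) :
    ∀ n : Option ι → ℕ, ∑ k, n k = 2 * m → ∃ e ∈ E, ∫ t, Complex.exp (q t) * mo κ n t =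
      pI ^ m * e * ∫ t, Complex.exp (q t) := by
  obtain ⟨H, hH, hHG⟩ := invE E G hE hdet
  induction m with
  | zero =>
    intro n hn
    refine ⟨1, E.one_mem, ?_⟩
    have h1 : ∀ k, n k = 0 := by
      intro k
      have hn0 : ∑ k, n k = 0 := by rw [hn]
      exact Finset.sum_eq_zero_iff.1 hn0 k (Finset.mem_univ k)
    rw [pow_zero, one_mul, one_mul]
    congr 1
    ext t
    unfold mo
    rw [Finset.prod_eq_one (fun k _ => by rw [h1 k, pow_zero]), mul_one]
  | succ m ih =>
    intro n' hn'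
    have h1 : ∃ j, n' j ≠ 0 := by
      by_contra h1
      push Not at h1
      rw [Finset.sum_eq_zero (fun k _ => h1 k)] at hn'
      omega
    obtain ⟨j, hj⟩ := h1
    obtain ⟨n, hn⟩ : ∃ n : Option ι → ℕ, n = Function.update n' j (n' j - 1) := ⟨_, rfl⟩
    have hnn' : n' = Function.update n j (n j + 1) := by
      rw [hn, Function.update_self, Function.update_idem,
        show n' j - 1 + 1 = n' j by omega, Function.update_eq_self]
    have hsum : ∑ k, n k = 2 * m + 1 := by
      have e1 : n' j + ∑ k ∈ univ.erase j, n' k = ∑ k, n' k :=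
        Finset.add_sum_erase univ n' (Finset.mem_univ j)
      have e2 : n j + ∑ k ∈ univ.erase j, n k = ∑ k, n k :=
        Finset.add_sum_erase univ n (Finset.mem_univ j)
      have e3 : ∑ k ∈ univ.erase j, n k = ∑ k ∈ univ.erase j, n' k :=
        Finset.sum_congr rfl fun k hk => by
          rw [hn, Function.update_of_ne (Finset.ne_of_mem_erase hk)]
      have e4 : n j = n' j - 1 := by rw [hn, Function.update_self]
      generalize ∑ k ∈ univ.erase j, n' k = c at e1 e3
      generalize ∑ k ∈ univ.erase j, n k = d at e2 e3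
      generalize ∑ k, n k = e at e2
      generalize ∑ k, n' k = e' at e1 hn'
      generalize n' j = y at e1 e4 hj
      generalize n j = x at e2 e4
      omega
    have hr := rec κ hκ G hG q hq hint n
    obtain ⟨a, ha⟩ : ∃ a : Option ι → ℂ, a = fun b => ∫ t, Complex.exp (q t) *
      mo κ (Function.update n b (n b + 1)) t := ⟨_, rfl⟩
    obtain ⟨b, hb⟩ : ∃ b : Option ι → ℂ, b = fun i => -(pI / 2) * (n i * ∫ t,
      Complex.exp (q t) * mo κ (Function.update n i (n i - 1)) t) := ⟨_, rfl⟩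
    have hGa : G.mulVec a = b := by
      ext i
      rw [Matrix.mulVec, dotProduct, ha, hb]
      exact hr i
    have haH : a = H.mulVec b := by
      rw [← hGa, Matrix.mulVec_mulVec, hHG, Matrix.one_mulVec]
    have hbE : ∀ i, ∃ e ∈ E, b i = pI ^ (m + 1) * e * ∫ t, Complex.exp (q t) := by
      intro i
      rcases Nat.eq_zero_or_pos (n i) with h | h
      · refine ⟨0, E.zero_mem, ?_⟩
        rw [hb]
        simp [h]
      · have hs : ∑ k, (Function.update n i (n i - 1)) k = 2 * m := by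
          have e1 : n i + ∑ k ∈ univ.erase i, n k = ∑ k, n k :=
            Finset.add_sum_erase univ n (Finset.mem_univ i)
          have e2 : (Function.update n i (n i - 1)) i + ∑ k ∈ univ.erase i,
              (Function.update n i (n i - 1)) k = ∑ k, (Function.update n i (n i - 1)) k :=
            Finset.add_sum_erase univ (Function.update n i (n i - 1)) (Finset.mem_univ i)
          have e3 : ∑ k ∈ univ.erase i, (Function.update n i (n i - 1)) k =
              ∑ k ∈ univ.erase i, n k :=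
            Finset.sum_congr rfl fun k hk => by
              rw [Function.update_of_ne (Finset.ne_of_mem_erase hk)]
          have e4 : (Function.update n i (n i - 1)) i = n i - 1 := Function.update_self _ _ _
          generalize ∑ k ∈ univ.erase i, n k = c at e1 e3
          generalize ∑ k ∈ univ.erase i, (Function.update n i (n i - 1)) k = d at e2 e3
          generalize ∑ k, n k = e at e1 hsum
          generalize ∑ k, (Function.update n i (n i - 1)) k = e' at e2
          generalize (Function.update n i (n i - 1)) i = x at e2 e4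
          generalize n i = y at e1 e4 h
          omega
        obtain ⟨e, he, hie⟩ := ih _ hs
        refine ⟨-(1 / 2) * (n i * e), ?_, ?_⟩
        · have h2 : (1 / 2 : ℂ) ∈ E := E.div_mem E.one_mem (by
            have := E.add_mem E.one_mem E.one_mem
            rwa [one_add_one_eq_two] at this)
          exact E.mul_mem (E.neg_mem h2) (E.mul_mem (natCast_mem E (n i)) he)
        · rw [hb]
          simp only
          rw [hie]
          ring
    choose ε hε1 hε2 using hbE
    refine ⟨∑ i, H j i * ε i, E.sum_mem fun i _ => E.mul_mem (hH j i) (hε1 i), ?_⟩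
    have h5 : ∫ t, Complex.exp (q t) * mo κ n' t = a j := by
      rw [ha, hnn']
    rw [h5, haH, Matrix.mulVec, dotProduct, Finset.mul_sum, Finset.sum_mul]
    refine Finset.sum_congr rfl fun i _ => ?_
    rw [hε2 i]
    ring

end

/-- job TA-GM -/
theorem gm : S_GM := by
  intro ι _ _ E κ q R S hκ hR hqR G hQ J W hW
  obtain ⟨hE, hG, hdet, hGq⟩ := hQ
  have hq : ∀ t, q t = pI⁻¹ * Bf G (uc κ t) (uc κ t) := hGq
  have hqc : Continuous q := by
    have h1 : q = fun t => pI⁻¹ * ∑ i, ∑ j, G i j * uc κ t i * uc κ t j := by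
      ext t
      exact hGq t
    rw [h1]
    refine continuous_const.mul (continuous_finsetSum _ fun i _ => continuous_finsetSum _
      fun j _ => ?_)
    exact (continuous_const.mul (uc_cont κ i)).mul (uc_cont κ j)
  have hre : ∀ t, (q t).re = -R t := by
    intro t
    rw [hqR t]
    simp
  have hRc : Continuous fun t => R t := by
    have h1 : (fun t => R t) = fun t => -(q t).re := by
      ext t
      rw [hre t, neg_neg]
    rw [h1]
    exact (Complex.continuous_re.comp hqc).neg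
  obtain ⟨c, hc, hcR⟩ := low R hR hRc
  have hqle : ∀ t, (q t).re ≤ -(c * ‖t‖ ^ 2) := by
    intro t
    rw [hre t]
    have := hcR t
    linarith
  have hint : ∀ n : Option ι → ℕ, Integrable (fun t => Complex.exp (q t) * mo κ n t) :=
    fun n => mo_int κ n q hqc c hc hqle
  unfold TP at hW
  induction hW using Submodule.span_induction with
  | mem f hf =>
    obtain ⟨m, α, β, hs, rfl⟩ := hf
    obtain ⟨g, hg⟩ : ∃ g : Option ι → ℕ, g = fun o => o.elim β α := ⟨_, rfl⟩
    obtain ⟨m', hm'⟩ : ∃ m' : ℕ, J - m = m' := by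
      refine ⟨(J - m).toNat, (Int.toNat_of_nonneg ?_).symm⟩
      have h1 : 0 ≤ ∑ a, (α a : ℤ) := Finset.sum_nonneg fun a _ => by positivity
      omega
    have hgs : ∑ k, g k = 2 * m' := by
      rw [Fintype.sum_option, hg]
      simp only [Option.elim]
      have h1 : (((∑ a, α a : ℕ)) : ℤ) = ∑ a, (α a : ℤ) := by push_cast; rfl
      omega
    obtain ⟨e, he, hee⟩ := moments E κ hκ G hE hdet hG q hq hint m' g hgs
    have h3 : ∀ t, Complex.exp (q t) * mn κ m α β t = pI ^ m * (Complex.exp (q t) * mo κ g t) := by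
      intro t
      unfold mo
      rw [Fintype.prod_option, hg]
      unfold mn
      simp only [Option.elim, uc]
      ring
    simp_rw [h3]
    refine ⟨(hint g).const_mul _, e, he, ?_⟩
    rw [integral_const_mul, hee]
    have h4 : pI ^ J = pI ^ m * pI ^ m' := by
      rw [← zpow_natCast, ← zpow_add₀ pI_ne, ← hm']
      congr 1
      ring
    rw [h4]
    ring
  | zero =>
    simp only [Pi.zero_apply, mul_zero]
    exact ⟨integrable_zero _ _ _, 0, E.zero_mem, by simp⟩
  | add f g _ _ hf hg =>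
    obtain ⟨i1, e1, he1, h1⟩ := hf
    obtain ⟨i2, e2, he2, h2⟩ := hg
    simp only [Pi.add_apply, mul_add]
    refine ⟨i1.add i2, e1 + e2, E.add_mem he1 he2, ?_⟩
    rw [integral_add i1 i2, h1, h2]
    ring
  | smul c f _ hf =>
    obtain ⟨i1, e1, he1, h1⟩ := hf
    have h3 : ∀ t, Complex.exp (q t) * (c • f) t = (c : ℂ) * (Complex.exp (q t) * f t) := by
      intro t
      rw [Pi.smul_apply, show c • f t = (c : ℂ) * f t from rfl]
      ring
    simp_rw [h3]
    refine ⟨i1.const_mul _, c * e1, E.mul_mem c.2 he1, ?_⟩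
    rw [integral_const_mul, h1]
    ring

end Pool.Agent.Y814.TA
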