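import Pool.Agent.Y814.TA.Qmx

/-!
Project TA (helper472), job TA-PSJ (helper814): the potential.  The parts on analyticity and on the
values at real points are copied from theorem cmb of helper363.
-/

set_option autoImplicit false

namespace Pool.Agent.Y814.TA

open Finset Filter Topology MeasureTheory Pool.Agent.W711.HT Pool.Agent.Y472.K Pool.Agent.Y472.L
  Pool.Agent.Y363.TKX
open scoped Real Nat

theorem dca (F : ℂ → ℂ) (δ τ s : ℂ) :
    deriv (fun s => F (δ + s * τ)) s = τ * deriv F (δ + s * τ) := by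
  have h1 := deriv_comp_mul_left τ (fun x => F (δ + x)) s
  rw [deriv_comp_const_add, smul_eq_mul, mul_comm τ s] at h1
  rw [← h1]
  congr 1
  ext x
  rw [mul_comm]

theorem dda (F : ℂ → ℂ) (δ τ z : ℂ) :
    deriv (deriv fun s => F (δ + s * τ)) z = τ * (τ * deriv (deriv F) (δ + z * τ)) := by
  have h1 : (deriv fun s => F (δ + s * τ)) = fun s => τ * deriv F (δ + s * τ) :=
    funext fun s => dca F δ τ s
  rw [h1, deriv_const_mul_field, dca]

theorem dsh (g : ℂ → ℂ) (z : ℂ) : deriv (deriv g) z = deriv (deriv fun s => g (z + s)) 0 := by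
  have h1 : (deriv fun s => g (z + s)) = fun s => deriv g (z + s) :=
    funext fun s => deriv_comp_const_add (f := g) z s
  rw [h1, deriv_comp_const_add, add_zero]

theorem ddq (c0 c1 c2 z : ℂ) : deriv (deriv fun s => c0 + c1 * s + c2 * s ^ 2) z = 2 * c2 := by
  have h1 : (deriv fun s : ℂ => c0 + c1 * s + c2 * s ^ 2) = fun s => c1 + 2 * c2 * s := by
    ext s
    have h3 := ((hasDerivAt_id s).const_mul c1).const_add c0
    have h4 := (hasDerivAt_pow 2 s).const_mul c2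
    have h2 : HasDerivAt (fun s : ℂ => c0 + c1 * s + c2 * s ^ 2)
      (c1 * 1 + c2 * (((2 : ℕ) : ℂ) * s ^ (2 - 1))) s := h3.add h4
    rw [h2.deriv]
    simp
    ring
  rw [h1]
  have h2 : HasDerivAt (fun s : ℂ => c1 + 2 * c2 * s) (2 * c2 * 1) z :=
    ((hasDerivAt_id z).const_mul (2 * c2)).const_add c1
  rw [h2.deriv, mul_one]

section gen

variable {ι : Type} [Fintype ι] [DecidableEq ι] {E : Subfield ℂ} {κ : ℂ} {p₀ : (ι → ℂ) × ℂ}

theorem jt_zero (hA : S_JTA) (hκ : κ ≠ 0) (m : ℤ) : Jt E κ p₀ m 0 fun _ => 0 := by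
  obtain ⟨hc0, -, -, -, -, -, hpow, -, -⟩ := hA ι E κ p₀ hκ
  have h1 := hpow 0 m 0 _ (hc0 0 E.zero_mem)
  rw [add_zero] at h1
  simpa using h1

theorem jt_const (hA : S_JTA) (hκ : κ ≠ 0) (m : ℤ) (c : ℂ) (hc : c ∈ E) :
    Jt E κ p₀ m 0 fun _ => pI ^ m * c := by
  obtain ⟨hc0, -, -, -, -, -, hpow, -, -⟩ := hA ι E κ p₀ hκ
  have h1 := hpow 0 m 0 _ (hc0 c hc)
  rwa [add_zero] at h1

theorem jt_sum {α : Type} (hA : S_JTA) (hκ : κ ≠ 0) (m : ℤ) (k₀ : ℕ) (s : Finset α)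
    (f : α → (ι → ℂ) × ℂ → ℂ) (h : ∀ a ∈ s, Jt E κ p₀ m k₀ (f a)) :
    Jt E κ p₀ m k₀ fun w => ∑ a ∈ s, f a w := by
  classical
  obtain ⟨-, -, hadd, -, -, -, -, hmono, -⟩ := hA ι E κ p₀ hκ
  induction s using Finset.induction_on with
  | empty =>
    simp only [Finset.sum_empty]
    exact hmono m 0 k₀ _ (Nat.zero_le _) (jt_zero hA hκ m)
  | insert a s ha ih =>
    simp only [Finset.sum_insert ha]
    exact hadd m k₀ _ _ (h a (mem_insert_self _ _)) (ih fun b hb => h b (mem_insert_of_mem hb))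

/-- indicator -/
noncomputable def dl (p a : ι) : ℂ := if a = p then 1 else 0

theorem dl_mem (p a : ι) : dl p a ∈ E := by
  unfold dl
  split_ifs
  · exact E.one_mem
  · exact E.zero_mem

theorem dl_sum (p : ι) (x : ι → ℂ) : ∑ a, x a * dl p a = x p := by
  unfold dl
  rw [Finset.sum_eq_single p]
  · rw [if_pos rfl, mul_one]
  · intro a _ ha
    rw [if_neg ha, mul_zero]
  · intro h
    exact absurd (Finset.mem_univ p) h

theorem jt_lx (hA : S_JTA) (hD : S_JTD) (hκ : κ ≠ 0) (p q : ι) {Lx : ℂ → ℂ}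
    (han : AnalyticAt ℂ (fun w : (ι → ℂ) × ℂ => Lx (w.1 p - w.1 q)) p₀)
    (hL2 : ∀ᶠ w in 𝓝 (p₀.1 p - p₀.1 q), deriv (deriv Lx) w = -ct1 0 w)
    (hct : Jt E κ p₀ 1 0 fun w => ct1 0 (w.1 p - w.1 q)) :
    Jt E κ p₀ (-1) 2 fun w => Lx (w.1 p - w.1 q) := by
  obtain ⟨-, -, -, hsm, -, -, hpow, -, -⟩ := hA ι E κ p₀ hκ
  obtain ⟨-, hD2⟩ := hD ι E κ p₀ hκ
  have h1 : Jt E κ p₀ (-1) 0 fun w => pI ^ (-2 : ℤ) * ct1 0 (w.1 p - w.1 q) := by
    have h := hpow 1 (-2) 0 _ hct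
    rwa [show (-2 : ℤ) + 1 = -1 by norm_num] at h
  refine hD2 (-1) _ (fun a b w => (-((dl p a - dl q a) * (dl p b - dl q b))) *
    (pI ^ (-2 : ℤ) * ct1 0 (w.1 p - w.1 q))) (fun _ _ => 0) (fun _ => 0) han ?_ ?_ ?_ ?_
  · intro a b
    exact hsm (-1) 0 _ _ (E.neg_mem (E.mul_mem (E.sub_mem (dl_mem p a) (dl_mem q a))
      (E.sub_mem (dl_mem p b) (dl_mem q b)))) h1
  · intro a
    exact jt_zero hA hκ (-1)
  · exact jt_zero hA hκ (-1)
  · intro t
    obtain ⟨τ, hτ⟩ : ∃ τ : ℂ, τ = (t.1 p : ℂ) - t.1 q := ⟨_, rfl⟩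
    have h2 : ∀ s : ℂ, (p₀ + s • cst t).1 p - (p₀ + s • cst t).1 q =
        (p₀.1 p - p₀.1 q) + s * τ := by
      intro s
      rw [hτ]
      simp [cst]
      ring
    have h3 : Tendsto (fun z : ℂ => (p₀.1 p - p₀.1 q) + z * τ) (𝓝 0) (𝓝 (p₀.1 p - p₀.1 q)) := by
      have hc : Continuous (fun z : ℂ => (p₀.1 p - p₀.1 q) + z * τ) := by fun_prop
      have := hc.tendsto 0
      simpa using this
    filter_upwards [h3.eventually hL2] with z hz
    simp only [h2]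
    rw [dda, hz]
    have h4 : ∑ a, ∑ b, (pI * (t.1 a : ℂ)) * (pI * (t.1 b : ℂ)) *
        (-((dl p a - dl q a) * (dl p b - dl q b)) * (pI ^ (-2 : ℤ) *
          ct1 0 ((p₀.1 p - p₀.1 q) + z * τ))) =
        -(pI * τ) * (pI * τ) * (pI ^ (-2 : ℤ) * ct1 0 ((p₀.1 p - p₀.1 q) + z * τ)) := by
      have h5 : ∑ a, (pI * (t.1 a : ℂ)) * (dl p a - dl q a) = pI * τ := by
        simp only [mul_sub, Finset.sum_sub_distrib]
        rw [dl_sum p fun a => pI * (t.1 a : ℂ), dl_sum q fun a => pI * (t.1 a : ℂ), hτ]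
        ring
      rw [neg_mul, neg_mul]
      nth_rewrite 1 [← h5]
      rw [← h5, Finset.sum_mul_sum, Finset.sum_mul, ← Finset.sum_neg_distrib]
      refine Finset.sum_congr rfl fun a _ => ?_
      rw [Finset.sum_mul, ← Finset.sum_neg_distrib]
      refine Finset.sum_congr rfl fun b _ => ?_
      ring
    rw [h4]
    have hpI := pI_ne
    simp only [mul_zero, Finset.sum_const_zero, add_zero]
    rw [zpow_neg]
    field_simp

theorem jt_th (hA : S_JTA) (hD : S_JTD) (hκ : κ ≠ 0) (p : ι) (y : ℝ) {Θ : ℂ → ℂ → ℂ}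
    (han : AnalyticAt ℂ (fun w : (ι → ℂ) × ℂ => Θ (w.1 p) (w.2 + y * Complex.I)) p₀)
    (hΘ : ∀ᶠ P in 𝓝 ((p₀.1 p, p₀.2 + y * Complex.I) : ℂ × ℂ), ∀ a b : ℂ,
      deriv (deriv fun s : ℂ => Θ (P.1 + s * a) (P.2 + s * b)) 0 =
      a ^ 2 * (4 * π * Complex.sin (2 * π * P.1) / dn P.1 P.2) -
      2 * a * b * (2 * Complex.sin P.2 / dn P.1 P.2) +
      b ^ 2 * (Complex.sin (2 * π * P.1) / (π * dn P.1 P.2)))
    (J1 : Jt E κ p₀ 1 0 fun w => qt1 0 (w.1 p) (w.2 + y * Complex.I))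
    (J2 : Jt E κ p₀ 0 0 fun w => 2 * Complex.sin (w.2 + y * Complex.I) /
      (κ * dn (w.1 p) (w.2 + y * Complex.I)))
    (J3 : Jt E κ p₀ (-1) 0 fun w => Complex.sin (2 * π * w.1 p) /
      (π * κ ^ 2 * dn (w.1 p) (w.2 + y * Complex.I))) :
    Jt E κ p₀ (-1) 2 fun w => Θ (w.1 p) (w.2 + y * Complex.I) := by
  obtain ⟨-, -, -, hsm, -, -, hpow, -, -⟩ := hA ι E κ p₀ hκ
  obtain ⟨-, hD2⟩ := hD ι E κ p₀ hκ
  have h1 : Jt E κ p₀ (-1) 0 fun w => pI ^ (-2 : ℤ) * qt1 0 (w.1 p) (w.2 + y * Complex.I) := by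
    have h := hpow 1 (-2) 0 _ J1
    rwa [show (-2 : ℤ) + 1 = -1 by norm_num] at h
  have h1' : Jt E κ p₀ (-1) 0 fun w => pI ^ (-1 : ℤ) * (2 * Complex.sin (w.2 + y * Complex.I) /
      (κ * dn (w.1 p) (w.2 + y * Complex.I))) := by
    have h := hpow 0 (-1) 0 _ J2
    rwa [show (-1 : ℤ) + 0 = -1 by norm_num] at h
  have h2E : (2 : ℂ) ∈ E := by
    have := E.add_mem E.one_mem E.one_mem
    rwa [one_add_one_eq_two] at this
  refine hD2 (-1) _ (fun a b w => (dl p a * dl p b) *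
    (pI ^ (-2 : ℤ) * qt1 0 (w.1 p) (w.2 + y * Complex.I)))
    (fun a w => (-(2 * dl p a)) * (pI ^ (-1 : ℤ) * (2 * Complex.sin (w.2 + y * Complex.I) /
      (κ * dn (w.1 p) (w.2 + y * Complex.I)))))
    (fun w => Complex.sin (2 * π * w.1 p) /
      (π * κ ^ 2 * dn (w.1 p) (w.2 + y * Complex.I))) han ?_ ?_ J3 ?_
  · intro a b
    exact hsm (-1) 0 _ _ (E.mul_mem (dl_mem p a) (dl_mem p b)) h1
  · intro a
    exact hsm (-1) 0 _ _ (E.neg_mem (E.mul_mem h2E (dl_mem p a))) h1'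
  · intro t
    have h2 : ∀ s : ℂ, (p₀ + s • cst t).1 p = p₀.1 p + s * (t.1 p : ℂ) := by
      intro s
      simp [cst]
    have h2' : ∀ s : ℂ, (p₀ + s • cst t).2 = p₀.2 + s * (t.2 : ℂ) := by
      intro s
      simp [cst]
    have h3 : Tendsto (fun z : ℂ => ((p₀.1 p + z * (t.1 p : ℂ),
        p₀.2 + z * (t.2 : ℂ) + y * Complex.I) : ℂ × ℂ)) (𝓝 0)
        (𝓝 (p₀.1 p, p₀.2 + y * Complex.I)) := by
      have hc : Continuous (fun z : ℂ => ((p₀.1 p + z * (t.1 p : ℂ),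
        p₀.2 + z * (t.2 : ℂ) + y * Complex.I) : ℂ × ℂ)) := by fun_prop
      have := hc.tendsto 0
      simpa using this
    filter_upwards [h3.eventually hΘ] with z hz
    simp only [h2, h2']
    rw [dsh]
    have h4 : (fun s : ℂ => Θ (p₀.1 p + (z + s) * (t.1 p : ℂ))
        (p₀.2 + (z + s) * (t.2 : ℂ) + y * Complex.I)) = fun s : ℂ =>
        Θ (p₀.1 p + z * (t.1 p : ℂ) + s * (t.1 p : ℂ))
          (p₀.2 + z * (t.2 : ℂ) + y * Complex.I + s * (t.2 : ℂ)) := by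
      ext s
      congr 1 <;> ring
    rw [h4, hz (t.1 p) (t.2)]
    obtain ⟨W, hW⟩ : ∃ W : ℂ, W = p₀.1 p + z * (t.1 p : ℂ) := ⟨_, rfl⟩
    obtain ⟨X, hX⟩ : ∃ X : ℂ, X = p₀.2 + z * (t.2 : ℂ) + y * Complex.I := ⟨_, rfl⟩
    rw [← hW, ← hX]
    have h5 : ∑ a, ∑ b, (pI * (t.1 a : ℂ)) * (pI * (t.1 b : ℂ)) *
        ((dl p a * dl p b) * (pI ^ (-2 : ℤ) * qt1 0 W X)) =
        (pI * (t.1 p : ℂ)) * (pI * (t.1 p : ℂ)) * (pI ^ (-2 : ℤ) * qt1 0 W X) := by
      have h6 := dl_sum p fun a => pI * (t.1 a : ℂ)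
      nth_rewrite 1 [← h6]
      nth_rewrite 1 [← h6]
      rw [Finset.sum_mul_sum, Finset.sum_mul]
      refine Finset.sum_congr rfl fun a _ => ?_
      rw [Finset.sum_mul]
      refine Finset.sum_congr rfl fun b _ => ?_
      ring
    have h7 : ∑ a, (pI * (t.1 a : ℂ)) * (κ * (t.2 : ℂ)) *
        (-(2 * dl p a) * (pI ^ (-1 : ℤ) * (2 * Complex.sin X / (κ * dn W X)))) =
        (pI * (t.1 p : ℂ)) * (κ * (t.2 : ℂ)) *
        (-2 * (pI ^ (-1 : ℤ) * (2 * Complex.sin X / (κ * dn W X)))) := by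
      have h6 := dl_sum p fun a => pI * (t.1 a : ℂ)
      nth_rewrite 1 [← h6]
      rw [Finset.sum_mul, Finset.sum_mul]
      refine Finset.sum_congr rfl fun a _ => ?_
      ring
    rw [h5, h7]
    have hq : qt1 0 W X = 4 * π * Complex.sin (2 * π * W) / dn W X := by
      unfold qt1
      rw [iteratedDeriv_zero]
    rw [hq, zpow_neg, zpow_neg, zpow_one]
    have hpI := pI_ne
    have hpi : (π : ℂ) ≠ 0 := Complex.ofReal_ne_zero.2 Real.pi_ne_zero
    have hz2 : (pI ^ (2 : ℤ))⁻¹ * pI * pI = 1 := by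
      field_simp
    have e1 : (pI * (t.1 p : ℂ)) * (pI * (t.1 p : ℂ)) * ((pI ^ (2 : ℤ))⁻¹ *
        (4 * π * Complex.sin (2 * π * W) / dn W X)) =
        ((pI ^ (2 : ℤ))⁻¹ * pI * pI) * ((t.1 p : ℂ) ^ 2 *
          (4 * π * Complex.sin (2 * π * W) / dn W X)) := by ring
    have e2 : (pI * (t.1 p : ℂ)) * (κ * (t.2 : ℂ)) *
        (-2 * (pI⁻¹ * (2 * Complex.sin X / (κ * dn W X)))) =
        (pI * pI⁻¹) * (κ * κ⁻¹) * (-(2 * (t.1 p : ℂ) * (t.2 : ℂ) *
          (2 * Complex.sin X / dn W X))) := by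
      rw [mul_comm κ (dn W X), ← div_div]
      ring
    have e3 : (κ * (t.2 : ℂ)) ^ 2 * (Complex.sin (2 * π * W) / (π * κ ^ 2 * dn W X)) =
        (κ * κ⁻¹) ^ 2 * ((t.2 : ℂ) ^ 2 * (Complex.sin (2 * π * W) / (π * dn W X))) := by
      rw [show (π : ℂ) * κ ^ 2 * dn W X = π * dn W X * κ ^ 2 by ring, ← div_div]
      ring
    rw [e1, e2, e3, hz2, mul_inv_cancel₀ hpI, mul_inv_cancel₀ hκ]
    ring

theorem jt_bil (hA : S_JTA) (hD : S_JTD) (hκ : κ ≠ 0) (p p' s : ι) :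
    Jt E κ p₀ (-1) 2 fun w => Complex.I * π * ((w.1 p - w.1 p') * w.1 s) := by
  obtain ⟨-, hD2⟩ := hD ι E κ p₀ hκ
  refine hD2 (-1) _ (fun a b _ => pI ^ (-1 : ℤ) * ((dl p a - dl p' a) * dl s b))
    (fun _ _ => 0) (fun _ => 0) ?_ ?_ ?_ ?_ ?_
  · exact analyticAt_const.mul (((an_coord _ _).sub (an_coord _ _)).mul (an_coord _ _))
  · intro a b
    exact jt_const hA hκ (-1) _ (E.mul_mem (E.sub_mem (dl_mem p a) (dl_mem p' a)) (dl_mem s b))
  · intro a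
    exact jt_zero hA hκ (-1)
  · exact jt_zero hA hκ (-1)
  · intro t
    refine Eventually.of_forall fun z => ?_
    have h2 : (fun x : ℂ => Complex.I * π * (((p₀ + x • cst t).1 p - (p₀ + x • cst t).1 p') *
        (p₀ + x • cst t).1 s)) = fun x : ℂ => Complex.I * π * ((p₀.1 p - p₀.1 p') * p₀.1 s) +
        (Complex.I * π * ((p₀.1 p - p₀.1 p') * t.1 s + (t.1 p - t.1 p') * p₀.1 s)) * x +
        (Complex.I * π * ((t.1 p - t.1 p') * t.1 s)) * x ^ 2 := by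
      ext x
      simp [cst]
      ring
    rw [h2, ddq]
    have h4 : ∑ a, ∑ b, (pI * (t.1 a : ℂ)) * (pI * (t.1 b : ℂ)) *
        (pI ^ (-1 : ℤ) * ((dl p a - dl p' a) * dl s b)) =
        pI ^ (-1 : ℤ) * ((pI * ((t.1 p : ℂ) - t.1 p')) * (pI * (t.1 s : ℂ))) := by
      have h5 : ∑ a, (pI * (t.1 a : ℂ)) * (dl p a - dl p' a) = pI * ((t.1 p : ℂ) - t.1 p') := by
        simp only [mul_sub, Finset.sum_sub_distrib]
        rw [dl_sum p fun a => pI * (t.1 a : ℂ), dl_sum p' fun a => pI * (t.1 a : ℂ)]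
      have h6 : ∑ b, (pI * (t.1 b : ℂ)) * dl s b = pI * (t.1 s : ℂ) :=
        dl_sum s fun a => pI * (t.1 a : ℂ)
      rw [← h5, ← h6, Finset.sum_mul_sum, Finset.mul_sum]
      refine Finset.sum_congr rfl fun a _ => ?_
      rw [Finset.mul_sum]
      refine Finset.sum_congr rfl fun b _ => ?_
      ring
    rw [h4]
    have hpI := pI_ne
    simp only [mul_zero, Finset.sum_const_zero, add_zero]
    rw [zpow_neg_one]
    have h7 : pI⁻¹ * ((pI * ((t.1 p : ℂ) - t.1 p')) * (pI * (t.1 s : ℂ))) =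
        pI * (((t.1 p : ℂ) - t.1 p') * t.1 s) := by
      field_simp
    rw [h7]
    unfold pI
    ring

theorem jt_aff (hA : S_JTA) (hD : S_JTD) (hκ : κ ≠ 0) (y : ℝ) :
    Jt E κ p₀ (-1) 2 fun w => 0 + (Complex.I * w.2 - y) := by
  obtain ⟨-, hD2⟩ := hD ι E κ p₀ hκ
  refine hD2 (-1) _ (fun _ _ _ => 0) (fun _ _ => 0) (fun _ => 0) ?_ ?_ ?_ ?_ ?_
  · exact analyticAt_const.add ((analyticAt_const.mul analyticAt_snd).sub analyticAt_const)
  · intro a b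
    exact jt_zero hA hκ (-1)
  · intro a
    exact jt_zero hA hκ (-1)
  · exact jt_zero hA hκ (-1)
  · intro t
    refine Eventually.of_forall fun z => ?_
    have h2 : (fun x : ℂ => 0 + (Complex.I * (p₀ + x • cst t).2 - y)) = fun x : ℂ =>
        (Complex.I * p₀.2 - y) + (Complex.I * t.2) * x + 0 * x ^ 2 := by
      ext x
      simp [cst]
      ring
    rw [h2, ddq]
    simp

end gen

/-- job TA-PSJ -/
theorem psj : S_PSJ := by
  intro hPAR hA hB hD hSR hQR hBF Lx σ c hSD n _ hn Θ θ c' hQD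
  obtain ⟨hLx, hσ, hσ2, hS⟩ := hSD
  obtain ⟨hΘ, hθ, hΘ2, hθ2, hθ3, r₀, hr₀, hint, hQ⟩ := hQD
  obtain ⟨-, -, -, -, hy, -, hb1, hb2, -⟩ := hPAR n hn
  have wl : ∀ r : Fin n, wst n (Sum.inl r) = 1 - bs n := fun r => rfl
  have wr : ∀ r : Fin n, wst n (Sum.inr r) = bs n := fun r => rfl
  have hd : ∀ r r' : Fin n, 0 < wst n (Sum.inl r) - wst n (Sum.inr r') ∧
      wst n (Sum.inl r) - wst n (Sum.inr r') < 1 := by
    intro r r'
    rw [wl, wr]
    constructor <;> linarith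
  refine ⟨?_, ?_, ?_⟩
  · -- analyticity
    unfold Psi
    have hd : ∀ r r' : Fin n, 0 < wst n (Sum.inl r) - wst n (Sum.inr r') ∧
        wst n (Sum.inl r) - wst n (Sum.inr r') < 1 := by
      intro r r'
      rw [wl, wr]
      constructor <;> linarith
    refine AnalyticAt.add ?_ (analyticAt_const.add ((analyticAt_const.mul analyticAt_snd).sub
      analyticAt_const))
    refine Finset.analyticAt_fun_sum _ fun r _ => ?_
    refine ((analyticAt_const.mul (((an_coord _ _).sub (an_coord _ _)).mul (an_coord _ _))).add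
      ((an_sd (hLx _ (hd r r).1 (hd r r).2).1).add
        (an_sd (hLx _ (hd (r + 1) r).1 (hd (r + 1) r).2).1))).add ?_
    refine (an_q (hΘ _ ?_ ?_)).sub (an_q (hΘ _ ?_ ?_))
    · rw [wl]; linarith
    · rw [wl]; linarith
    · rw [wr]; linarith
    · rw [wr]; linarith
  · -- the values at the real points
    refine ⟨min r₀ (1 / 12), lt_min hr₀ (by norm_num), ?_⟩
    intro N hN k x hk hx
    have hNr : (0 : ℝ) < N := by exact_mod_cast hN
    have hNc : (N : ℂ) ≠ 0 := by exact_mod_cast hNr.ne'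
    have hx0 : |x| < r₀ := hx.trans_le (min_le_left _ _)
    have kl : ∀ r : Fin n, 1 - bs n - 1 / 12 < (k (Sum.inl r) : ℝ) / N ∧
        (k (Sum.inl r) : ℝ) / N < 1 - bs n + 1 / 12 := by
      intro r
      have h := abs_lt.1 ((hk (Sum.inl r)).trans_le (min_le_right _ _))
      rw [wl] at h
      constructor <;> linarith [h.1, h.2]
    have kr : ∀ r : Fin n, bs n - 1 / 12 < (k (Sum.inr r) : ℝ) / N ∧
        (k (Sum.inr r) : ℝ) / N < bs n + 1 / 12 := by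
      intro r
      have h := abs_lt.1 ((hk (Sum.inr r)).trans_le (min_le_right _ _))
      rw [wr] at h
      constructor <;> linarith [h.1, h.2]
    have eL : ∀ r r' : Fin n, Lx ((((k (Sum.inl r) : ℝ) / N : ℝ) : ℂ) -
        (((k (Sum.inr r') : ℝ) / N : ℝ) : ℂ)) =
        (Lc (((k (Sum.inl r) : ℝ) - k (Sum.inr r')) / N) : ℂ) := by
      intro r r'
      have e : (((k (Sum.inl r) : ℝ) / N : ℝ) : ℂ) - (((k (Sum.inr r') : ℝ) / N : ℝ) : ℂ) =
          ((((k (Sum.inl r) : ℝ) - k (Sum.inr r')) / N : ℝ) : ℂ) := by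
        push_cast
        ring
      rw [e]
      have h1 := kl r
      have h2 := kr r'
      refine (hLx _ ?_ ?_).2.1
      · rw [sub_div]; linarith [h1.1, h2.2]
      · rw [sub_div]; linarith [h1.2, h2.1]
    have eQ : ∀ r r' : Fin n, Θ (((k (Sum.inl r) : ℝ) / N : ℝ) : ℂ) ((x : ℂ) + yn n * Complex.I) -
        Θ (((k (Sum.inr r') : ℝ) / N : ℝ) : ℂ) ((x : ℂ) + yn n * Complex.I) =
        ∫ t in ((k (Sum.inr r') : ℝ) / N)..((k (Sum.inl r) : ℝ) / N), clf x (yn n) t := by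
      intro r r'
      have h1 := kl r
      have h2 := kr r'
      exact hint _ _ x (by linarith [h1.1]) (by linarith [h1.2]) (by linarith [h2.1])
        (by linarith [h2.2]) hx0
    have eP : Psi n (yn n) Lx Θ (cst (fun i => (k i : ℝ) / N, x)) =
        ∑ r : Fin n, ((Complex.I * π * (((((k (Sum.inl r) : ℝ) / N : ℝ) : ℂ) -
          (((k (Sum.inl (r + 1)) : ℝ) / N : ℝ) : ℂ)) * (((k (Sum.inr r) : ℝ) / N : ℝ) : ℂ)) +
        ((Lc (((k (Sum.inl r) : ℝ) - k (Sum.inr r)) / N) : ℂ) +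
          (Lc (((k (Sum.inl (r + 1)) : ℝ) - k (Sum.inr r)) / N) : ℂ))) +
        ∫ t in ((k (Sum.inr r) : ℝ) / N)..((k (Sum.inl (r + 1)) : ℝ) / N), clf x (yn n) t) +
        (0 + (Complex.I * (x : ℂ) - yn n)) := by
      unfold Psi
      simp only [cst]
      congr 1
      refine Finset.sum_congr rfl fun r _ => ?_
      rw [eL, eL, eQ]
    rw [eP]
    unfold Xe
    rw [Finset.sum_add_distrib, Finset.sum_add_distrib, Finset.mul_sum]
    have e3 : ∑ r : Fin n, Complex.I * π * (((((k (Sum.inl r) : ℝ) / N : ℝ) : ℂ) -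
          (((k (Sum.inl (r + 1)) : ℝ) / N : ℝ) : ℂ)) * (((k (Sum.inr r) : ℝ) / N : ℝ) : ℂ)) =
        ∑ r : Fin n, Complex.I * π / (N : ℂ) ^ 2 *
          (((k (Sum.inl r) : ℂ) - k (Sum.inl (r + 1))) * k (Sum.inr r)) := by
      refine Finset.sum_congr rfl fun r _ => ?_
      push_cast
      field_simp
    rw [e3]
    ring
  · -- the class
    intro E hE
    obtain ⟨b1, b2, b3, b4, b5, b6, b7, b8, b9, b10, b11⟩ := hBF hPAR n hn E hE
    obtain ⟨κ, hκd⟩ : ∃ κ, κ = ks n := ⟨_, rfl⟩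
    rw [← hκd] at b1 b2 ⊢
    have hκ : κ ≠ 0 := b1
    have hκy : κ = Complex.I * Real.sinh (yn n) := hκd
    obtain ⟨p₀, hp₀⟩ : ∃ p₀ : (Fin n ⊕ Fin n → ℂ) × ℂ, p₀ = cst (wst n, 0) := ⟨_, rfl⟩
    have hpl : ∀ r : Fin n, p₀.1 (Sum.inl r) = ((1 - bs n : ℝ) : ℂ) := by
      intro r
      rw [hp₀]
      rfl
    have hpr : ∀ r : Fin n, p₀.1 (Sum.inr r) = ((bs n : ℝ) : ℂ) := by
      intro r
      rw [hp₀]
      rfl
    have hp2 : p₀.2 = 0 := by
      rw [hp₀]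
      simp [cst]
    obtain ⟨hc0, hc1, hadd, hsm, hmul, hinv, hpow, hmono, hcongr⟩ :=
      hA (Fin n ⊕ Fin n) E κ p₀ hκ
    have hneg : (-1 : ℂ) ∈ E := E.neg_mem E.one_mem
    rw [← hp₀]
    -- the terms with Lx
    have tL : ∀ r r' : Fin n, Jt E κ p₀ (-1) 2 fun w => Lx (w.1 (Sum.inl r) - w.1 (Sum.inr r')) := by
      intro r r'
      have hc := hSR hA hB (Fin n ⊕ Fin n) E κ p₀ (Sum.inl r) (Sum.inr r') hκ
        (by rw [hpl, hpr]; exact b6) (by rw [hpl, hpr]; exact b7) 0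
      have hc' : Jt E κ p₀ 1 0 fun w => ct1 0 (w.1 (Sum.inl r) - w.1 (Sum.inr r')) := by
        simpa using hc
      refine jt_lx hA hD hκ _ _ ?_ ?_ hc'
      · rw [hp₀]
        exact an_sd (hLx _ (hd r r').1 (hd r r').2).1
      · have h := (hLx _ (hd r r').1 (hd r r').2).2.2
        rw [hpl, hpr]
        rw [wl, wr] at h
        rwa [Complex.ofReal_sub] at h
    -- the terms with Θ
    have tT : ∀ (p : Fin n ⊕ Fin n) (t : ℝ), wst n p = t → 0 ≤ t → t ≤ 1 →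
        Complex.exp (pI * (t : ℂ)) ∈ E → dn (t : ℂ) (yn n * Complex.I) ≠ 0 →
        Jt E κ p₀ (-1) 2 fun w => Θ (w.1 p) (w.2 + yn n * Complex.I) := by
      intro p t hpt h0 h1 hE1 hd1
      have hp : p₀.1 p = (t : ℂ) := by
        rw [hp₀, ← hpt]
        rfl
      obtain ⟨q1, q2, q3, -⟩ := hQR hA hB (Fin n ⊕ Fin n) E κ p₀ p (yn n) hκ hκy b3 hp2
        (by rw [hp]; exact hE1) (by rw [hp]; exact hd1)
      have q1' : Jt E κ p₀ 1 0 fun w => qt1 0 (w.1 p) (w.2 + yn n * Complex.I) := by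
        simpa using q1 0
      refine jt_th hA hD hκ p (yn n) ?_ ?_ q1' q2 q3
      · rw [hp₀]
        exact an_q (hΘ _ (by rw [hpt]; exact h0) (by rw [hpt]; exact h1))
      · rw [hp, hp2, zero_add]
        exact hΘ2 t h0 h1
    have tl : ∀ r : Fin n, Jt E κ p₀ (-1) 2 fun w =>
        Θ (w.1 (Sum.inl r)) (w.2 + yn n * Complex.I) := fun r =>
      tT (Sum.inl r) (1 - bs n) rfl (by linarith) (by linarith) b4 b8
    have tr : ∀ r : Fin n, Jt E κ p₀ (-1) 2 fun w =>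
        Θ (w.1 (Sum.inr r)) (w.2 + yn n * Complex.I) := fun r =>
      tT (Sum.inr r) (bs n) rfl (by linarith) (by linarith) b5 b9
    have hterm : ∀ r ∈ (Finset.univ : Finset (Fin n)), Jt E κ p₀ (-1) 2
        fun w => ((Complex.I * π * ((w.1 (Sum.inl r) - w.1 (Sum.inl (r + 1))) * w.1 (Sum.inr r)) +
    (Lx (w.1 (Sum.inl r) - w.1 (Sum.inr r)) + Lx (w.1 (Sum.inl (r + 1)) - w.1 (Sum.inr r)))) +
    (Θ (w.1 (Sum.inl (r + 1))) (w.2 + yn n * Complex.I) -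
      Θ (w.1 (Sum.inr r)) (w.2 + yn n * Complex.I))) := by
      intro r _
      have h1 := hadd (-1) 2 _ _ (hadd (-1) 2 _ _
        (jt_bil (E := E) (κ := κ) (p₀ := p₀) hA hD hκ (Sum.inl r) (Sum.inl (r + 1)) (Sum.inr r))
        (hadd (-1) 2 _ _ (tL r r) (tL (r + 1) r)))
        (hadd (-1) 2 _ _ (tl (r + 1)) (hsm (-1) 2 _ _ hneg (tr r)))
      refine hcongr (-1) 2 _ _ (Eventually.of_forall fun w => ?_) h1
      simp only
      ring
    have hall := hadd (-1) 2 _ _ (jt_sum hA hκ (-1) 2 Finset.univ _ hterm)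
      (jt_aff (E := E) (κ := κ) (p₀ := p₀) hA hD hκ (yn n))
    exact hall

end Pool.Agent.Y814.TA
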