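import Pool.Agent.Y472.L.Defs

/-!
Project TA (helper472), job TA-QMX (helper814): the matrix of the quadratic part.
-/

set_option autoImplicit false

namespace Pool.Agent.Y814.TA

open Finset Filter Topology MeasureTheory Pool.Agent.Y472.L
open scoped Real Nat

theorem pI_ne : pI ≠ 0 := by
  unfold pI
  exact Complex.two_pi_I_ne_zero

theorem step {κ : Type} [Fintype κ] [DecidableEq κ] (g : κ → ℕ) (m : ℕ) (h : ∑ k, g k = m + 1) :
    ∃ (i : κ) (g' : κ → ℕ), ∑ k, g' k = m ∧
      ∀ f : κ → ℂ, ∏ k, f k ^ g k = f i * ∏ k, f k ^ g' k := by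
  have h1 : ∃ i, g i ≠ 0 := by
    by_contra h1
    push Not at h1
    rw [Finset.sum_eq_zero (fun k _ => h1 k)] at h
    omega
  obtain ⟨i, hi⟩ := h1
  obtain ⟨g', hg'⟩ : ∃ g' : κ → ℕ, g' = Function.update g i (g i - 1) := ⟨_, rfl⟩
  have hi' : g' i = g i - 1 := by rw [hg', Function.update_self]
  have hne : ∀ k ∈ univ.erase i, g' k = g k := by
    intro k hk
    rw [hg', Function.update_of_ne (Finset.ne_of_mem_erase hk)]
  refine ⟨i, g', ?_, fun f => ?_⟩
  · have e1 : g i + ∑ k ∈ univ.erase i, g k = ∑ k, g k :=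
      Finset.add_sum_erase univ g (Finset.mem_univ i)
    have e2 : g' i + ∑ k ∈ univ.erase i, g' k = ∑ k, g' k :=
      Finset.add_sum_erase univ g' (Finset.mem_univ i)
    have e3 : ∑ k ∈ univ.erase i, g' k = ∑ k ∈ univ.erase i, g k := Finset.sum_congr rfl hne
    generalize ∑ k ∈ univ.erase i, g k = c at e1 e3
    generalize ∑ k ∈ univ.erase i, g' k = d at e2 e3
    generalize ∑ k, g k = e at e1 h
    generalize ∑ k, g' k = e' at e2
    generalize g' i = y at e2 hi'
    generalize g i = x at e1 hi hi'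
    omega
  · rw [← Finset.mul_prod_erase univ (fun k => f k ^ g k) (Finset.mem_univ i),
      ← Finset.mul_prod_erase univ (fun k => f k ^ g' k) (Finset.mem_univ i)]
    have h2 : ∏ k ∈ univ.erase i, f k ^ g' k = ∏ k ∈ univ.erase i, f k ^ g k :=
      Finset.prod_congr rfl fun k hk => by rw [hne k hk]
    rw [h2, ← mul_assoc, hi']
    congr 1
    obtain ⟨d, hd⟩ : ∃ d, g i = d + 1 := ⟨g i - 1, by omega⟩
    rw [hd, Nat.add_sub_cancel]
    ring

theorem two {κ : Type} [Fintype κ] [DecidableEq κ] (g : κ → ℕ) (h : ∑ k, g k = 2) :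
    ∃ i j : κ, ∀ f : κ → ℂ, ∏ k, f k ^ g k = f i * f j := by
  obtain ⟨i, g1, h1, e1⟩ := step g 1 h
  obtain ⟨j, g2, h2, e2⟩ := step g1 0 h1
  refine ⟨i, j, fun f => ?_⟩
  rw [e1, e2]
  have h3 : ∀ k, g2 k = 0 := by
    intro k
    have := Finset.sum_eq_zero_iff.1 h2 k (Finset.mem_univ k)
    exact this
  have h4 : ∏ k, f k ^ g2 k = 1 := Finset.prod_eq_one fun k _ => by rw [h3 k, pow_zero]
  rw [h4, mul_one]

/-- the bilinear form of a matrix -/
noncomputable def Bf {κ : Type} [Fintype κ] (G : Matrix κ κ ℂ) (U V : κ → ℂ) : ℂ :=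
  ∑ i, ∑ j, G i j * U i * V j

theorem Bf_symm {κ : Type} [Fintype κ] (G : Matrix κ κ ℂ) (hG : G.IsSymm) (U V : κ → ℂ) :
    Bf G U V = Bf G V U := by
  unfold Bf
  rw [Finset.sum_comm]
  refine Finset.sum_congr rfl fun i _ => Finset.sum_congr rfl fun j _ => ?_
  rw [hG.apply i j]
  ring

theorem Bf_add {κ : Type} [Fintype κ] (G : Matrix κ κ ℂ) (U V W : κ → ℂ) (c : ℂ) :
    Bf G U (fun i => V i + c * W i) = Bf G U V + c * Bf G U W := by
  unfold Bf
  rw [Finset.mul_sum, ← Finset.sum_add_distrib]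
  refine Finset.sum_congr rfl fun i _ => ?_
  rw [Finset.mul_sum, ← Finset.sum_add_distrib]
  refine Finset.sum_congr rfl fun j _ => ?_
  ring

theorem Bf_zero {κ : Type} [Fintype κ] (G : Matrix κ κ ℂ) (U V : κ → ℂ) (h : G.mulVec V = 0) :
    Bf G U V = 0 := by
  unfold Bf
  apply Finset.sum_eq_zero
  intro i _
  have h1 := congrFun h i
  rw [Matrix.mulVec, dotProduct] at h1
  calc ∑ j, G i j * U i * V j = U i * ∑ j, G i j * V j := by
        rw [Finset.mul_sum]
        exact Finset.sum_congr rfl fun j _ => by ring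
    _ = 0 := by rw [h1, Pi.zero_apply, mul_zero]

section

variable (ι : Type) [Fintype ι] [DecidableEq ι] (E : Subfield ℂ) (κ : ℂ)

theorem ex (q : ((ι → ℝ) × ℝ) → ℂ) (hq : q ∈ HP E κ (-1) 2) :
    ∃ G : Matrix (Option ι) (Option ι) ℂ, (∀ i j, G i j ∈ E) ∧ G.IsSymm ∧
      ∀ t, q t = pI⁻¹ * ∑ i, ∑ j, G i j * uc κ t i * uc κ t j := by
  unfold HP at hq
  induction hq using Submodule.span_induction with
  | mem f hf =>
    obtain ⟨α, β, hs, rfl⟩ := hf
    obtain ⟨g, hg⟩ : ∃ g : Option ι → ℕ, g = fun o => o.elim β α := ⟨_, rfl⟩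
    obtain ⟨i, j, hij⟩ := two g (by
      rw [Fintype.sum_option, hg]
      simp only [Option.elim]
      omega)
    have h2 : (1 / 2 : ℂ) ∈ E := E.div_mem E.one_mem (by
      have := E.add_mem E.one_mem E.one_mem
      rwa [one_add_one_eq_two] at this)
    refine ⟨fun a b => 1 / 2 * ((if a = i then 1 else 0) * (if b = j then 1 else 0)) +
      1 / 2 * ((if a = j then 1 else 0) * (if b = i then 1 else 0)), ?_, ?_, ?_⟩
    · intro a b
      have h3 : ∀ (P : Prop) [Decidable P], (if P then (1 : ℂ) else 0) ∈ E := by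
        intro P _
        split_ifs
        · exact E.one_mem
        · exact E.zero_mem
      exact E.add_mem (E.mul_mem h2 (E.mul_mem (h3 _) (h3 _)))
        (E.mul_mem h2 (E.mul_mem (h3 _) (h3 _)))
    · refine Matrix.IsSymm.ext fun a b => ?_
      show (1 / 2 * ((if b = i then 1 else 0) * (if a = j then 1 else 0)) +
        1 / 2 * ((if b = j then 1 else 0) * (if a = i then 1 else 0)) : ℂ) =
        1 / 2 * ((if a = i then 1 else 0) * (if b = j then 1 else 0)) +
        1 / 2 * ((if a = j then 1 else 0) * (if b = i then 1 else 0))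
      ring
    · intro t
      have h3 : mn κ (-1) α β t = pI⁻¹ * ∏ k, uc κ t k ^ g k := by
        rw [Fintype.prod_option, hg]
        unfold mn
        simp only [Option.elim, uc]
        rw [zpow_neg_one, mul_comm ((κ * (t.2 : ℂ)) ^ β)]
      rw [h3, hij]
      congr 1
      have h4 : ∀ (i j : Option ι) (U : Option ι → ℂ), ∑ a, ∑ b,
          (((if a = i then 1 else 0) * (if b = j then 1 else 0) : ℂ)) * U a * U b = U i * U j := by
        intro i j U
        rw [Finset.sum_eq_single i]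
        · rw [Finset.sum_eq_single j]
          · simp
          · intro b _ hb
            simp [hb]
          · intro h
            exact absurd (Finset.mem_univ j) h
        · intro a _ ha
          apply Finset.sum_eq_zero
          intro b _
          simp [ha]
        · intro h
          exact absurd (Finset.mem_univ i) h
      have h5 : ∀ a b : Option ι, (1 / 2 * ((if a = i then 1 else 0) * (if b = j then 1 else 0)) +
          1 / 2 * ((if a = j then 1 else 0) * (if b = i then 1 else 0)) : ℂ) * uc κ t a *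
            uc κ t b = 1 / 2 * ((((if a = i then 1 else 0) * (if b = j then 1 else 0) : ℂ)) *
              uc κ t a * uc κ t b) + 1 / 2 * ((((if a = j then 1 else 0) *
                (if b = i then 1 else 0) : ℂ)) * uc κ t a * uc κ t b) := by
        intro a b
        ring
      simp_rw [h5, Finset.sum_add_distrib, ← Finset.mul_sum]
      rw [h4 i j, h4 j i]
      ring
  | zero =>
    refine ⟨0, fun i j => E.zero_mem, ?_, fun t => ?_⟩
    · ext a b
      simp
    · simp
  | add f g _ _ hf hg =>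
    obtain ⟨G, h1, h2, h3⟩ := hf
    obtain ⟨G', h1', h2', h3'⟩ := hg
    refine ⟨G + G', fun i j => E.add_mem (h1 i j) (h1' i j), h2.add h2', fun t => ?_⟩
    rw [Pi.add_apply, h3, h3', ← mul_add, ← Finset.sum_add_distrib]
    congr 1
    refine Finset.sum_congr rfl fun i _ => ?_
    rw [← Finset.sum_add_distrib]
    refine Finset.sum_congr rfl fun j _ => ?_
    rw [Matrix.add_apply]
    ring
  | smul c f _ hf =>
    obtain ⟨G, h1, h2, h3⟩ := hf
    refine ⟨(c : ℂ) • G, fun i j => ?_, h2.smul _, fun t => ?_⟩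
    · rw [Matrix.smul_apply, smul_eq_mul]
      exact E.mul_mem c.2 (h1 i j)
    · rw [Pi.smul_apply, h3]
      rw [show c • (pI⁻¹ * ∑ i, ∑ j, G i j * uc κ t i * uc κ t j) =
        (c : ℂ) * (pI⁻¹ * ∑ i, ∑ j, G i j * uc κ t i * uc κ t j) from rfl,
        mul_left_comm, Finset.mul_sum]
      congr 1
      refine Finset.sum_congr rfl fun i _ => ?_
      rw [Finset.mul_sum]
      refine Finset.sum_congr rfl fun j _ => ?_
      rw [Matrix.smul_apply, smul_eq_mul]
      ring

end

/-- job TA-QMX -/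
theorem qmx : S_QMX := by
  intro ι _ _ E κ q R S hκ hR hq hqR
  obtain ⟨G, hE, hG, hGq⟩ := ex ι E κ q hq
  refine ⟨G, hE, hG, ?_, hGq⟩
  intro hdet
  obtain ⟨c, hc0, hc⟩ := Matrix.exists_mulVec_eq_zero_iff.2 hdet
  have hpI := pI_ne
  obtain ⟨x, hx⟩ : ∃ x : (ι → ℝ) × ℝ,
    x = (fun a => (c (some a) / pI).re, (c none / κ).re) := ⟨_, rfl⟩
  obtain ⟨y, hy⟩ : ∃ y : (ι → ℝ) × ℝ,
    y = (fun a => (c (some a) / pI).im, (c none / κ).im) := ⟨_, rfl⟩
  have hcu : c = fun i => uc κ x i + Complex.I * uc κ y i := by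
    ext i
    rcases i with _ | a
    · show c none = κ * (x.2 : ℂ) + Complex.I * (κ * (y.2 : ℂ))
      have h1 : ((x.2 : ℝ) : ℂ) + (y.2 : ℝ) * Complex.I = c none / κ := by
        rw [hx, hy]
        exact Complex.re_add_im _
      have h2 : κ * (c none / κ) = c none := by field_simp
      rw [← h2, ← h1]
      ring
    · show c (some a) = pI * (x.1 a : ℂ) + Complex.I * (pI * (y.1 a : ℂ))
      have h1 : ((x.1 a : ℝ) : ℂ) + (y.1 a : ℝ) * Complex.I = c (some a) / pI := by
        rw [hx, hy]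
        exact Complex.re_add_im _
      have h2 : pI * (c (some a) / pI) = c (some a) := by field_simp
      rw [← h2, ← h1]
      ring
  have hX : Bf G (uc κ x) (uc κ x) + Complex.I * Bf G (uc κ x) (uc κ y) = 0 := by
    rw [← Bf_add, ← hcu]
    exact Bf_zero G _ _ hc
  have hY : Bf G (uc κ y) (uc κ x) + Complex.I * Bf G (uc κ y) (uc κ y) = 0 := by
    rw [← Bf_add, ← hcu]
    exact Bf_zero G _ _ hc
  rw [Bf_symm G hG (uc κ y) (uc κ x)] at hY
  have hsum : Bf G (uc κ x) (uc κ x) + Bf G (uc κ y) (uc κ y) = 0 := by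
    have hI : Complex.I * Complex.I = -1 := Complex.I_mul_I
    linear_combination hX - Complex.I * hY + Bf G (uc κ y) (uc κ y) * hI
  have hq0 : q x + q y = 0 := by
    rw [hGq x, hGq y, ← mul_add]
    have h1 : ∑ i, ∑ j, G i j * uc κ x i * uc κ x j = Bf G (uc κ x) (uc κ x) := rfl
    have h2 : ∑ i, ∑ j, G i j * uc κ y i * uc κ y j = Bf G (uc κ y) (uc κ y) := rfl
    rw [h1, h2, hsum, mul_zero]
  have hre : R x + R y = 0 := by
    have h1 := congrArg Complex.re hq0
    rw [hqR x, hqR y] at h1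
    simp at h1
    linarith
  have hnn : ∀ z : (ι → ℝ) × ℝ, 0 ≤ R z := by
    intro z
    rcases eq_or_ne z 0 with h | h
    · rw [h, QuadraticMap.map_zero]
    · exact (hR z h).le
  have hx0 : x = 0 := by
    by_contra h
    have h1 := hR x h
    have h2 := hnn y
    linarith
  have hy0 : y = 0 := by
    by_contra h
    have h1 := hR y h
    have h2 := hnn x
    linarith
  apply hc0
  rw [hcu]
  ext i
  rw [hx0, hy0]
  rcases i with _ | a
  · show κ * (((0 : (ι → ℝ) × ℝ).2 : ℝ) : ℂ) + Complex.I * (κ * (((0 : (ι → ℝ) × ℝ).2 : ℝ) : ℂ)) = 0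
    simp
  · show pI * (((0 : (ι → ℝ) × ℝ).1 a : ℝ) : ℂ) +
      Complex.I * (pI * (((0 : (ι → ℝ) × ℝ).1 a : ℝ) : ℂ)) = 0
    simp

end Pool.Agent.Y814.TA
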