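import Pool.Agent.Y814.TA.Gm
import Pool.Agent.Y86.TK.Gau

/-!
Project TA (helper472), job TA-GSQ (helper814): the square of the Gaussian integral.
-/

set_option autoImplicit false

namespace Pool.Agent.Y814.TA

open Finset Filter Topology MeasureTheory Pool.Agent.Y472.L
open scoped Real Nat

section

variable {ι : Type} [Fintype ι] [DecidableEq ι]

/-- coordinates -/
noncomputable def Φ : ((ι → ℝ) × ℝ) ≃ₗ[ℝ] (Option ι → ℝ) where
  toFun t o := o.elim t.2 t.1
  map_add' x y := by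
    ext o
    cases o <;> rfl
  map_smul' c x := by
    ext o
    cases o <;> rfl
  invFun y := (fun a => y (some a), y none)
  left_inv t := rfl
  right_inv y := by
    ext o
    cases o <;> rfl

theorem int_tr (f : (Option ι → ℝ) → ℂ) :
    ∫ t : (ι → ℝ) × ℝ, f (Φ t) = ∫ y : Option ι → ℝ, f y := by
  have h := Measure.pi_map_piOptionEquivProd (ι := ι) (β := fun _ => ℝ)
    (fun _ => (volume : Measure ℝ))
  have h2 : ∀ t : (ι → ℝ) × ℝ,
      (MeasurableEquiv.piOptionEquivProd (fun _ : Option ι => ℝ)).symm t = Φ t := by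
    intro t
    ext o
    cases o <;> rfl
  rw [volume_pi, ← h, MeasureTheory.integral_map_equiv]
  simp_rw [h2]
  rfl

theorem Bf_single {κ : Type} [Fintype κ] [DecidableEq κ] (M : Matrix κ κ ℂ) (i j : κ) :
    Bf M (fun k => ((Pi.single i (1 : ℝ) : κ → ℝ) k : ℂ))
      (fun k => ((Pi.single j (1 : ℝ) : κ → ℝ) k : ℂ)) = M i j := by
  unfold Bf
  rw [Finset.sum_eq_single i]
  · rw [Finset.sum_eq_single j]
    · simp
    · intro b _ hb
      simp [Pi.single_eq_of_ne hb]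
    · intro h
      exact absurd (Finset.mem_univ j) h
  · intro a _ ha
    apply Finset.sum_eq_zero
    intro b _
    simp [Pi.single_eq_of_ne ha]
  · intro h
    exact absurd (Finset.mem_univ i) h

theorem Bf_dbl {κ : Type} [Fintype κ] (M : Matrix κ κ ℂ) (hM : M.IsSymm) (U V : κ → ℂ) :
    Bf M (fun k => U k + 1 * V k) (fun k => U k + 1 * V k) =
      Bf M U U + 2 * Bf M U V + Bf M V V := by
  rw [Bf_add, Bf_symm M hM _ U, Bf_symm M hM _ V, Bf_add, Bf_add, Bf_symm M hM V U]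
  ring

theorem pol {κ : Type} [Fintype κ] [DecidableEq κ] (M N : Matrix κ κ ℂ) (hM : M.IsSymm)
    (hN : N.IsSymm) (h : ∀ x : κ → ℝ, Bf M (fun k => (x k : ℂ)) (fun k => (x k : ℂ)) =
      Bf N (fun k => (x k : ℂ)) (fun k => (x k : ℂ))) : M = N := by
  ext i j
  have h1 := h (Pi.single i 1)
  have h2 := h (Pi.single j 1)
  have h3 := h (Pi.single i 1 + Pi.single j 1)
  have h4 : (fun k => (((Pi.single i (1 : ℝ) + Pi.single j (1 : ℝ) : κ → ℝ) k : ℝ) : ℂ)) =
      fun k => ((Pi.single i (1 : ℝ) : κ → ℝ) k : ℂ) +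
        1 * ((Pi.single j (1 : ℝ) : κ → ℝ) k : ℂ) := by
    ext k
    rw [Pi.add_apply]
    push_cast
    ring
  rw [h4, Bf_dbl M hM, Bf_dbl N hN, Bf_single, Bf_single, Bf_single, Bf_single, Bf_single,
    Bf_single] at h3
  rw [Bf_single, Bf_single] at h1 h2
  have h5 : 2 * M i j = 2 * N i j := by linear_combination h3 - h1 - h2
  exact mul_left_cancel₀ two_ne_zero h5

/-- the square of the product of one dimensional integrals -/
theorem prod_sq {κ : Type} [Fintype κ] (b : κ → ℂ) (hb : ∀ k, 0 < (b k).re) :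
    (∫ x : κ → ℝ, Complex.exp (-∑ k, b k * (x k : ℂ) ^ 2)) ^ 2 * ∏ k, b k =
      (π : ℂ) ^ Fintype.card κ := by
  have h1 : ∀ x : κ → ℝ, Complex.exp (-∑ k, b k * (x k : ℂ) ^ 2) =
      ∏ k, Complex.exp (-b k * ((x k : ℝ) : ℂ) ^ 2) := by
    intro x
    rw [← Complex.exp_sum]
    congr 1
    rw [← Finset.sum_neg_distrib]
    exact Finset.sum_congr rfl fun k _ => by ring
  simp only [h1]
  rw [integral_fintype_prod_volume_eq_prod (𝕜 := ℂ)
    (fun k (y : ℝ) => Complex.exp (-b k * (y : ℂ) ^ 2)), ← Finset.prod_pow,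
    ← Finset.prod_mul_distrib]
  have h2 : ∀ k ∈ (univ : Finset κ), (∫ y : ℝ, Complex.exp (-b k * (y : ℂ) ^ 2)) ^ 2 * b k =
      (π : ℂ) := by
    intro k _
    have hne : b k ≠ 0 := by
      intro h
      have := hb k
      rw [h] at this
      simp at this
    rw [integral_gaussian_sq_complex (hb k)]
    field_simp
  rw [Finset.prod_congr rfl h2, Finset.prod_const, Finset.card_univ]

/-- change of variables -/
theorem int_lin {κ : Type} [Fintype κ] [DecidableEq κ] (A : (κ → ℝ) ≃ₗ[ℝ] (κ → ℝ))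
    (g : (κ → ℝ) → ℂ) :
    (∫ y, g (A y)) * (|LinearMap.det (A : (κ → ℝ) →ₗ[ℝ] (κ → ℝ))| : ℝ) = ∫ y, g y := by
  have hdet : LinearMap.det (A : (κ → ℝ) →ₗ[ℝ] (κ → ℝ)) ≠ 0 := A.isUnit_det'.ne_zero
  have h1 := Measure.map_linearMap_addHaar_eq_smul_addHaar (volume : Measure (κ → ℝ)) hdet
  have h2 : ∫ y, g y ∂(Measure.map (A : (κ → ℝ) →ₗ[ℝ] (κ → ℝ)) volume) = ∫ y, g (A y) :=
    A.toContinuousLinearEquiv.toHomeomorph.measurableEmbedding.integral_map g
  rw [h1, integral_smul_measure, ENNReal.toReal_ofReal (abs_nonneg _)] at h2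
  rw [← h2, abs_inv, Complex.real_smul, mul_comm, ← mul_assoc, ← Complex.ofReal_mul,
    mul_inv_cancel₀ (abs_ne_zero.2 hdet), Complex.ofReal_one, one_mul]

end

/-- job TA-GSQ -/
theorem gsq : S_GSQ := by
  intro ι _ _ E κ q R S hκ hR hqR G hQ
  obtain ⟨hE, hG, hdet, hGq⟩ := hQ
  obtain ⟨n, L, β, h1, h2⟩ := Pool.Agent.Y86.TK.diag R S hR
  have hn : Fintype.card (Option ι) = n := by
    have h3 := L.finrank_eq
    rw [Module.finrank_prod, Module.finrank_fintype_fun_eq_card, Module.finrank_self,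
      Module.finrank_fin_fun] at h3
    rw [Fintype.card_option, h3]
  obtain ⟨e⟩ : Nonempty (Option ι ≃ Fin n) := ⟨Fintype.equivFinOfCardEq hn⟩
  obtain ⟨A, hA⟩ : ∃ A : (Option ι → ℝ) ≃ₗ[ℝ] (Option ι → ℝ),
      ∀ (t : (ι → ℝ) × ℝ) (o : Option ι), A (Φ t) o = L t (e o) :=
    ⟨(Φ.symm.trans L).trans (LinearEquiv.funCongrLeft ℝ ℝ e), fun t o => by
      rw [LinearEquiv.trans_apply, LinearEquiv.trans_apply, LinearEquiv.symm_apply_apply]
      rfl⟩
  obtain ⟨b, hb⟩ : ∃ b : Option ι → ℂ, b = fun o => 1 + (β (e o) : ℂ) * Complex.I := ⟨_, rfl⟩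
  have hbre : ∀ o, 0 < (b o).re := by
    intro o
    rw [hb]
    simp
  have hq1 : ∀ t, q t = -∑ o, b o * ((A (Φ t) o : ℝ) : ℂ) ^ 2 := by
    intro t
    rw [hqR t, h1 t, h2 t, ← Equiv.sum_comp e, ← Equiv.sum_comp e]
    push_cast
    rw [Finset.mul_sum, ← Finset.sum_add_distrib]
    congr 1
    refine Finset.sum_congr rfl fun o _ => ?_
    rw [hA, hb]
    ring
  -- the integral
  have hI : (∫ t, Complex.exp (q t)) * (|LinearMap.det (A : (Option ι → ℝ) →ₗ[ℝ] (Option ι → ℝ))| : ℝ)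
      = ∫ x : Option ι → ℝ, Complex.exp (-∑ k, b k * (x k : ℂ) ^ 2) := by
    rw [← int_lin A (fun x => Complex.exp (-∑ k, b k * (x k : ℂ) ^ 2)), ← int_tr]
    simp_rw [hq1]
  -- the matrices
  obtain ⟨A', hA'⟩ : ∃ A' : Matrix (Option ι) (Option ι) ℂ,
    A' = (algebraMap ℝ ℂ).mapMatrix (LinearMap.toMatrix' (A : (Option ι → ℝ) →ₗ[ℝ] (Option ι → ℝ))) :=
    ⟨_, rfl⟩
  have hA'det : A'.det = ((LinearMap.det (A : (Option ι → ℝ) →ₗ[ℝ] (Option ι → ℝ)) : ℝ) : ℂ) := by
    rw [hA', ← RingHom.map_det, LinearMap.det_toMatrix']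
    rfl
  have hA'x : ∀ (x : Option ι → ℝ) (o : Option ι), ((A x o : ℝ) : ℂ) = ∑ i, A' o i * (x i : ℂ) := by
    intro x o
    have h3 : A x = (LinearMap.toMatrix' (A : (Option ι → ℝ) →ₗ[ℝ] (Option ι → ℝ))).mulVec x := by
      rw [LinearMap.toMatrix'_mulVec]
      rfl
    rw [h3, Matrix.mulVec, dotProduct, hA']
    push_cast
    rfl
  obtain ⟨M1, hM1⟩ : ∃ M1 : Matrix (Option ι) (Option ι) ℂ,
    M1 = pI⁻¹ • (Matrix.diagonal (sv κ) * G * Matrix.diagonal (sv κ)) := ⟨_, rfl⟩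
  obtain ⟨M2, hM2⟩ : ∃ M2 : Matrix (Option ι) (Option ι) ℂ,
    M2 = -(A'.transpose * Matrix.diagonal b * A') := ⟨_, rfl⟩
  have s1 : M1.IsSymm := by
    rw [hM1]
    unfold Matrix.IsSymm
    rw [Matrix.transpose_smul, Matrix.transpose_mul, Matrix.transpose_mul,
      Matrix.diagonal_transpose, hG.eq, Matrix.mul_assoc]
  have s2 : M2.IsSymm := by
    rw [hM2]
    unfold Matrix.IsSymm
    rw [Matrix.transpose_neg, Matrix.transpose_mul, Matrix.transpose_mul,
      Matrix.diagonal_transpose, Matrix.transpose_transpose, Matrix.mul_assoc]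
  have hM12 : M1 = M2 := by
    refine pol M1 M2 s1 s2 fun x => ?_
    obtain ⟨t, rfl⟩ : ∃ t, Φ t = x := ⟨Φ.symm x, Φ.apply_symm_apply x⟩
    have e1 : Bf M1 (fun k => (Φ t k : ℂ)) (fun k => (Φ t k : ℂ)) = q t := by
      rw [hGq t, Finset.mul_sum]
      unfold Bf
      refine Finset.sum_congr rfl fun i _ => ?_
      rw [Finset.mul_sum]
      refine Finset.sum_congr rfl fun j _ => ?_
      have hu : ∀ k, uc κ t k = sv κ k * (Φ t k : ℂ) := by
        intro k
        cases k <;> rfl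
      rw [hM1, Matrix.smul_apply, Matrix.mul_diagonal, Matrix.diagonal_mul, hu, hu, smul_eq_mul]
      ring
    have e2 : Bf M2 (fun k => (Φ t k : ℂ)) (fun k => (Φ t k : ℂ)) = q t := by
      rw [hq1 t]
      have e3 : ∀ i j, M2 i j = -∑ o, A' o i * b o * A' o j := by
        intro i j
        rw [hM2, Matrix.neg_apply, Matrix.mul_apply]
        congr 1
        refine Finset.sum_congr rfl fun o _ => ?_
        rw [Matrix.mul_diagonal, Matrix.transpose_apply]
      unfold Bf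
      simp_rw [e3, hA'x, sq, Finset.sum_mul_sum, Finset.mul_sum, neg_mul, Finset.sum_neg_distrib,
        Finset.sum_mul]
      congr 1
      rw [Finset.sum_congr rfl fun i _ => Finset.sum_comm, Finset.sum_comm]
      refine Finset.sum_congr rfl fun o _ => Finset.sum_congr rfl fun i _ =>
        Finset.sum_congr rfl fun j _ => ?_
      ring
    rw [e1, e2]
  have hdetM : M1.det = M2.det := by rw [hM12]
  rw [hM1, hM2, Matrix.det_smul, Matrix.det_mul, Matrix.det_mul, Matrix.det_diagonal,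
    Matrix.det_neg, Matrix.det_mul, Matrix.det_mul, Matrix.det_transpose, Matrix.det_diagonal,
    hA'det, Fintype.prod_option, Fintype.card_option] at hdetM
  have hsv : ∏ i : ι, (sv κ (some i) : ℂ) = pI ^ Fintype.card ι := by
    show ∏ i : ι, pI = _
    rw [Finset.prod_const, Finset.card_univ]
  have hsn : (sv κ (none : Option ι) : ℂ) = κ := rfl
  rw [hsv, hsn] at hdetM
  have hpI := pI_ne
  have hz : pI ^ ((Fintype.card ι : ℤ) - 1) =
      pI⁻¹ ^ (Fintype.card ι + 1) * (pI ^ Fintype.card ι * pI ^ Fintype.card ι) := by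
    rw [zpow_sub_one₀ hpI, zpow_natCast, inv_pow, pow_succ]
    field_simp
  have hP := prod_sq b hbre
  rw [← hI, Fintype.card_option] at hP
  obtain ⟨d, hd⟩ : ∃ d : ℝ, d = LinearMap.det (A : (Option ι → ℝ) →ₗ[ℝ] (Option ι → ℝ)) := ⟨_, rfl⟩
  rw [← hd] at hP hdetM
  have habs : ((|d| : ℝ) : ℂ) ^ 2 = (d : ℂ) ^ 2 := by
    rw [← Complex.ofReal_pow, sq_abs, Complex.ofReal_pow]
  have hmain : pI ^ ((Fintype.card ι : ℤ) - 1) * κ ^ 2 * ((-1) ^ (Fintype.card ι + 1) * G.det) =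
      (d : ℂ) ^ 2 * ∏ k, b k := by
    have h5 : ((-1 : ℂ) ^ (Fintype.card ι + 1)) * (-1) ^ (Fintype.card ι + 1) = 1 := by
      rw [← mul_pow]
      norm_num
    calc pI ^ ((Fintype.card ι : ℤ) - 1) * κ ^ 2 * ((-1) ^ (Fintype.card ι + 1) * G.det) =
          (-1) ^ (Fintype.card ι + 1) * (pI⁻¹ ^ (Fintype.card ι + 1) *
            (κ * pI ^ Fintype.card ι * G.det * (κ * pI ^ Fintype.card ι))) := by
          rw [hz]
          ring
      _ = (-1) ^ (Fintype.card ι + 1) * ((-1) ^ (Fintype.card ι + 1) *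
            ((d : ℂ) * (∏ k, b k) * (d : ℂ))) := by
          rw [hdetM]
      _ = _ := by
          rw [← mul_assoc, h5]
          ring
  rw [hmain, ← hP, mul_pow, habs]
  ring

end Pool.Agent.Y814.TA
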